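import Pool.Agent.Q207.CM.HC
import Pool.Agent.Q207.CF.Main

/-!
# The truth lemma fails for Friedman's class forcing

The definitions used here: formulas of set theory `Fml`, truth `Sat` in a class, transitive models
`IsZF` of ZF (`Pool.Agent.W868.Defs`); names, evaluation, generic filters, the forcing relation,
`TruthLemma`, and the conditions `FCond` and the order `FLe` of Friedman's forcing
(`Pool.Agent.Q207.CF.Defs`); transitive models `IsZFm` of ZF without the power set axiom, the
reflection principle `Reflects` and the class `HC` of the hereditarily countable sets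
(`Pool.Agent.Q207.CM.Defs`).
-/

set_option autoImplicit false

namespace Pool.Agent.Results.MP_2c70cf_lc.Disproof

open Pool.Agent.W868 (IsZF)
open Q207.CF (FCond FLe TruthLemma)
open Q207.CM (IsZFm Reflects HC)

/-- `𝔽^M` satisfies the truth lemma over `M`. -/
def FTruth (M : Set ZFSet.{0}) : Prop := TruthLemma M M {p | FCond M p} FLe

/-- **Theorem.** The truth lemma fails for Friedman's forcing `𝔽^M`
* over every countable transitive model `M` of ZF without power set that satisfies the reflection
  principle,
* over every countable transitive model `M` of ZF,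
* and, for every hereditarily countable set `x`, over some countable transitive model `M` of ZF
  without power set that contains `x`. -/
theorem result :
    (∀ M : Set ZFSet.{0}, M.Countable → IsZFm M → Reflects M → ¬ FTruth M) ∧
    (∀ M : Set ZFSet.{0}, M.Countable → IsZF M → ¬ FTruth M) ∧
    ∀ x ∈ HC, ∃ M : Set ZFSet.{0}, M.Countable ∧ IsZFm M ∧ x ∈ M ∧ ¬ FTruth M := by
  have h1 : ∀ M : Set ZFSet.{0}, M.Countable → IsZFm M → Reflects M → ¬ FTruth M :=
    fun M hc hM hR => Q207.CM.not_truthLemma hM hc (Q207.CM.refl_of_reflects hR)
      (fun _ h => h)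
  refine ⟨h1, fun M hc hM => Q207.CF.not_truthLemma hM hc fun _ h => h, fun x hx => ?_⟩
  obtain ⟨M, hM, hxM⟩ := Q207.CM.exists_elm hx
  exact ⟨M, hM.cnt, Q207.CM.elm_zfm hM, hxM,
    h1 M hM.cnt (Q207.CM.elm_zfm hM) (Q207.CM.elm_reflects hM)⟩

end Pool.Agent.Results.MP_2c70cf_lc.Disproof
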